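import Mathlib
import Pool.Agent.X28.SP.Main
import Pool.Agent.X28.SX.StepI

/-! # Primes `p_(kn) + h` with `k ≤ n`, and `p_(k² n) + h`, for many shifts `h`

The index ranges are those of the questions: `k ≤ n` for `p_(kn)` and `p_(k² n)`, and
`k < 3 √n + 6` for `p_(kn)`. -/

set_option autoImplicit false

open Finset

namespace Pool.Agent.Results.MP_be93de_nt.ExactIndexRanges

/-- `p m` is the `m`-th prime, `p 1 = 2` -/
noncomputable def p (m : ℕ) : ℕ := Nat.nth Nat.Prime (m - 1)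

/-- the vectors `(h_1, ..., h_r)` with entries in `[1, X]` -/
def Box (r X : ℕ) : Finset (Fin r → ℕ) := Fintype.piFinset fun _ => Icc 1 X

/-- the `k` in `K` for which all numbers `p_(i(k)) + h_j` are prime -/
noncomputable def Good (i : ℕ → ℕ) (K : Finset ℕ) {r : ℕ} (h : Fin r → ℕ) : Finset ℕ :=
  K.filter fun k => ∀ j, (p (i k) + h j).Prime

/-- for at least `c X ^ r / (log log N) ^ r` of the `h` in the box there are at least
`c #K / (log X) ^ r` good `k` -/
def Rich (c : ℝ) (r X N : ℕ) (i : ℕ → ℕ) (K : Finset ℕ) : Prop :=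
  c * X ^ r / Real.log (Real.log N) ^ r ≤
    (((Box r X).filter fun h => c * K.card / Real.log X ^ r ≤ ((Good i K h).card : ℝ)).card : ℝ)

lemma rich_mono {c c' : ℝ} {r X N N' : ℕ} {i : ℕ → ℕ} {K : Finset ℕ} (hc : c' ≤ c)
    (hX : 2 ≤ X) (hll : 0 < Real.log (Real.log N)) (hll' : 0 < Real.log (Real.log N'))
    (hN : c' * Real.log (Real.log N) ^ r ≤ c * Real.log (Real.log N') ^ r)
    (h : Rich c r X N i K) : Rich c' r X N' i K := by
  unfold Rich at h ⊢
  have hl : 0 < Real.log X := Real.log_pos (by exact_mod_cast hX)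
  have h1 : c' * X ^ r / Real.log (Real.log N') ^ r ≤ c * X ^ r / Real.log (Real.log N) ^ r := by
    rw [div_le_div_iff₀ (by positivity) (by positivity)]
    have := mul_le_mul_of_nonneg_right hN (show (0 : ℝ) ≤ X ^ r by positivity)
    nlinarith
  refine h1.trans (h.trans ?_)
  have h2 : (Box r X).filter (fun h => c * K.card / Real.log X ^ r ≤ ((Good i K h).card : ℝ)) ⊆
      (Box r X).filter (fun h => c' * K.card / Real.log X ^ r ≤ ((Good i K h).card : ℝ)) := by
    intro h hh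
    rw [mem_filter] at hh ⊢
    refine ⟨hh.1, le_trans ?_ hh.2⟩
    gcongr
  exact_mod_cast card_le_card h2

lemma general (r : ℕ) (hr : 1 ≤ r) : ∃ c : ℝ, 0 < c ∧ ∃ N0 : ℕ, ∀ (N X : ℕ) (i : ℕ → ℕ) (K : Finset ℕ),
    N0 ≤ N → Set.InjOn i K → (∀ k ∈ K, 1 ≤ i k ∧ i k ≤ N) → N ^ 48 ≤ X → Real.log X ^ r ≤ K.card →
    Rich c r X N i K := by
  classical
  obtain ⟨c, hc, X0, h0⟩ := Pool.Agent.X28.SP.sparse r hr
  obtain ⟨n0, hn0⟩ := Pool.Agent.X28.SX.nth_le
  obtain ⟨n1, hn1⟩ := Pool.Agent.Y843.HS.log_pow_le 2 1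
  refine ⟨c / 2 ^ r, by positivity, max (max n0 n1) (max X0 100), ?_⟩
  intro N X i K hN hinj hi hX hm
  have hN100 : 100 ≤ N := by omega
  have hNr : (100 : ℝ) ≤ N := by exact_mod_cast hN100
  have hN0 : (0 : ℝ) < N := by linarith
  have hNX : N ≤ X := (Nat.le_self_pow (by norm_num) N).trans hX
  set S : Finset ℕ := K.image fun k => p (i k) with hS
  have hinjp : Set.InjOn (fun k => p (i k)) K := by
    intro a ha b hb hab
    exact hinj ha hb (Pool.Agent.X28.SX.nth_inj' (hi a ha).1 (hi b hb).1 hab)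
  have hSc : S.card = K.card := card_image_of_injOn hinjp
  have hlog1 := hn1 N (by omega)
  have hSY : S ⊆ Icc 1 (N ^ 2) := by
    intro s hs
    obtain ⟨k, hk, rfl⟩ := mem_image.1 hs
    have h1 := hn0 N (by omega) (i k) ((hi k hk).2.trans (by omega))
    rw [mem_Icc]
    refine ⟨(Nat.prime_nth_prime _).one_lt.le, ?_⟩
    have h2 : (p (i k) : ℝ) ≤ (N : ℝ) ^ 2 := by
      unfold p
      refine h1.trans ?_
      rw [one_mul] at hlog1
      rw [sq (N : ℝ)]
      exact mul_le_mul_of_nonneg_left hlog1 hN0.le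
    exact_mod_cast h2
  have hYX : 2 * ((N ^ 2 : ℕ) : ℝ) ≤ (X : ℝ) ^ (1 / 16 : ℝ) := by
    have h1 : ((N : ℝ) ^ 3) ≤ (X : ℝ) ^ (1 / 16 : ℝ) := by
      have h2 : ((N : ℝ) ^ 3) = ((N : ℝ) ^ 48) ^ (1 / 16 : ℝ) := by
        rw [← Real.rpow_natCast, ← Real.rpow_natCast, ← Real.rpow_mul hN0.le]
        norm_num
      rw [h2]
      apply Real.rpow_le_rpow (by positivity) _ (by norm_num)
      exact_mod_cast hX
    push_cast
    nlinarith [sq_nonneg (N : ℝ)]
  have h1 := h0 X (N ^ 2) S (by omega) (by nlinarith) hSY hYX (by rw [hSc]; exact hm)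
  have hle : (1 : ℝ) < Real.log (Real.log N) := by
    have h3 : (4 : ℝ) < Real.log N := by
      rw [Real.lt_log_iff_exp_lt hN0]
      have h4 : Real.exp (4 : ℝ) = Real.exp 1 ^ 4 := by rw [← Real.exp_nat_mul]; norm_num
      rw [h4]
      have h5 := pow_lt_pow_left₀ Real.exp_one_lt_d9 (Real.exp_pos 1).le (show 4 ≠ 0 by norm_num)
      refine h5.trans_le (le_trans ?_ hNr)
      norm_num
    rw [Real.lt_log_iff_exp_lt (by linarith)]
    linarith [Real.exp_one_lt_d9]
  have hll : Real.log (Real.log ((N ^ 2 : ℕ) : ℝ)) ≤ 2 * Real.log (Real.log N) := by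
    push_cast
    rw [Real.log_pow]
    have h2 : 0 < Real.log N := Real.log_pos (by linarith)
    push_cast
    rw [Real.log_mul (by norm_num) h2.ne']
    linarith [Real.log_two_lt_d9]
  have hll0 : 0 < Real.log (Real.log ((N ^ 2 : ℕ) : ℝ)) := by
    push_cast
    rw [Real.log_pow]
    have h2 : 0 < Real.log N := Real.log_pos (by linarith)
    push_cast
    rw [Real.log_mul (by norm_num) h2.ne']
    linarith [Real.log_pos (show (1 : ℝ) < 2 by norm_num)]
  have hR : Rich c r X (N ^ 2) i K := by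
    unfold Rich
    refine h1.trans ?_
    rw [hSc]
    have h2 : (Pool.Agent.X28.SP.Box r X).filter (fun h => c * K.card / Real.log X ^ r ≤
        ((Pool.Agent.X28.SP.hit S h).card : ℝ)) ⊆
        (Box r X).filter (fun h => c * K.card / Real.log X ^ r ≤ ((Good i K h).card : ℝ)) := by
      intro h hh
      rw [mem_filter] at hh ⊢
      refine ⟨hh.1, hh.2.trans ?_⟩
      have h3 : Pool.Agent.X28.SP.hit S h ⊆ (Good i K h).image fun k => p (i k) := by
        intro s hs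
        unfold Pool.Agent.X28.SP.hit at hs
        rw [mem_filter] at hs
        obtain ⟨k, hk, hks⟩ := mem_image.1 hs.1
        refine mem_image.2 ⟨k, ?_, hks⟩
        unfold Good
        rw [mem_filter]
        refine ⟨hk, ?_⟩
        rw [hks]
        exact hs.2
      exact_mod_cast (card_le_card h3).trans card_image_le
    exact_mod_cast card_le_card h2
  refine rich_mono ?_ (by omega) hll0 (by linarith) ?_ hR
  · apply div_le_self hc.le
    exact one_le_pow₀ (by norm_num)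
  · have h2 : Real.log (Real.log ((N ^ 2 : ℕ) : ℝ)) ^ r ≤ (2 * Real.log (Real.log N)) ^ r :=
      pow_le_pow_left₀ hll0.le hll r
    rw [mul_pow] at h2
    have h3 : 0 < c / 2 ^ r := by positivity
    calc c / 2 ^ r * Real.log (Real.log ((N ^ 2 : ℕ) : ℝ)) ^ r ≤
        c / 2 ^ r * (2 ^ r * Real.log (Real.log N) ^ r) := mul_le_mul_of_nonneg_left h2 h3.le
      _ = _ := by field_simp

lemma ll_pow {n N : ℕ} (hn : 100 ≤ n) (h1 : n ≤ N) (h3 : N ≤ n ^ 3) :
    0 < Real.log (Real.log n) ∧ 0 < Real.log (Real.log N) ∧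
      Real.log (Real.log N) ≤ 2 * Real.log (Real.log n) := by
  have hnr : (100 : ℝ) ≤ n := by exact_mod_cast hn
  have hNr : (n : ℝ) ≤ N := by exact_mod_cast h1
  have hN3 : (N : ℝ) ≤ (n : ℝ) ^ 3 := by exact_mod_cast h3
  have hn0 : (0 : ℝ) < n := by linarith
  have h4 : (4 : ℝ) < Real.log n := by
    rw [Real.lt_log_iff_exp_lt hn0]
    have h4 : Real.exp (4 : ℝ) = Real.exp 1 ^ 4 := by rw [← Real.exp_nat_mul]; norm_num
    rw [h4]
    have h5 := pow_lt_pow_left₀ Real.exp_one_lt_d9 (Real.exp_pos 1).le (show 4 ≠ 0 by norm_num)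
    refine h5.trans_le (le_trans ?_ hnr)
    norm_num
  have hln : Real.log n ≤ Real.log N := Real.log_le_log hn0 hNr
  have h5 : Real.log N ≤ 3 * Real.log n := by
    have := Real.log_le_log (by linarith) hN3
    rwa [Real.log_pow] at this
  refine ⟨Real.log_pos (by linarith), Real.log_pos (by linarith), ?_⟩
  have h6 : Real.log (Real.log N) ≤ Real.log (Real.log n ^ 2) := by
    apply Real.log_le_log (by linarith)
    nlinarith
  rwa [Real.log_pow] at h6

/-- For every `r ≥ 1` there are `c > 0` and `N₀` such that: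
(1) for all `N ≥ N₀`, `X ≥ N ^ 48`, every finite set `K` with `#K ≥ (log X) ^ r` and every injective map `i` from `K` to
`[1, N]`, for at least `c X ^ r / (log log N) ^ r` of the `h ∈ [1, X] ^ r` all numbers `p_(i(k)) + h_j` are prime for at
least `c #K / (log X) ^ r` of the `k ∈ K`;
(2) for all `n ≥ N₀` and `X ≥ n ^ 144` with `(log X) ^ r ≤ n` this holds, with `log log n`, for `p_(k n)`, `k ≤ n`, and for
`p_(k ^ 2 n)`, `k ≤ n`;
(3) for all `n ≥ N₀` and `X ≥ n ^ 144` with `(log X) ^ r ≤ √n` it holds for `p_(k n)`, `1 ≤ k < 3 √n + 6`. -/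
theorem result (r : ℕ) (hr : 1 ≤ r) : ∃ c : ℝ, 0 < c ∧ ∃ N₀ : ℕ,
    (∀ (N X : ℕ) (i : ℕ → ℕ) (K : Finset ℕ), N₀ ≤ N → Set.InjOn i K → (∀ k ∈ K, 1 ≤ i k ∧ i k ≤ N) →
      N ^ 48 ≤ X → Real.log X ^ r ≤ K.card → Rich c r X N i K) ∧
    (∀ n X : ℕ, N₀ ≤ n → n ^ 144 ≤ X → Real.log X ^ r ≤ n →
      Rich c r X n (fun k => k * n) (Icc 1 n) ∧ Rich c r X n (fun k => k ^ 2 * n) (Icc 1 n)) ∧
    (∀ n X : ℕ, N₀ ≤ n → n ^ 144 ≤ X → Real.log X ^ r ≤ √n → ∀ K : Finset ℕ,
      (∀ k : ℕ, k ∈ K ↔ 1 ≤ k ∧ (k : ℝ) < 3 * √n + 6) → Rich c r X n (fun k => k * n) K) := by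
  obtain ⟨c, hc, N0, h⟩ := general r hr
  have hcle : c / 2 ^ r ≤ c := div_le_self hc.le (one_le_pow₀ (by norm_num))
  have key : ∀ n N X : ℕ, ∀ (i : ℕ → ℕ) (K : Finset ℕ), 100 ≤ n → n ≤ N → N ≤ n ^ 3 → 2 ≤ X →
      Rich c r X N i K → Rich (c / 2 ^ r) r X n i K := by
    intro n N X i K hn h1 h3 hX hR
    obtain ⟨a1, a2, a3⟩ := ll_pow hn h1 h3
    refine rich_mono hcle hX a2 a1 ?_ hR
    have h2 : Real.log (Real.log N) ^ r ≤ (2 * Real.log (Real.log n)) ^ r :=
      pow_le_pow_left₀ a2.le a3 r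
    rw [mul_pow] at h2
    have h3 : 0 < c / 2 ^ r := by positivity
    calc c / 2 ^ r * Real.log (Real.log N) ^ r ≤
        c / 2 ^ r * (2 ^ r * Real.log (Real.log n) ^ r) := mul_le_mul_of_nonneg_left h2 h3.le
      _ = _ := by field_simp
  refine ⟨c / 2 ^ r, by positivity, max N0 100, ?_, ?_, ?_⟩
  · intro N X i K hN hinj hi hX hm
    have hN2 : N ≤ N ^ 3 := Nat.le_self_pow (by norm_num) N
    have hX2 : 2 ≤ X := le_trans (by omega) ((Nat.le_self_pow (show 48 ≠ 0 by norm_num) N).trans hX)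
    exact key N N X i K (by omega) le_rfl hN2 hX2 (h N X i K (by omega) hinj hi hX hm)
  · intro n X hn hX hm
    have hn1 : 1 ≤ n := by omega
    have hX2 : 2 ≤ X := le_trans (by omega) ((Nat.le_self_pow (show 144 ≠ 0 by norm_num) n).trans hX)
    have hX3 : (n ^ 3) ^ 48 ≤ X := by rw [← pow_mul]; exact hX
    have hn3 : n ≤ n ^ 3 := Nat.le_self_pow (by norm_num) n
    have hm' : Real.log X ^ r ≤ (Icc 1 n).card := by simpa using hm
    constructor
    · refine key n (n ^ 3) X _ _ (by omega) hn3 le_rfl hX2 (h (n ^ 3) X _ _ (by omega) ?_ ?_ hX3 hm')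
      · intro a _ b _ hab
        exact Nat.eq_of_mul_eq_mul_right hn1 hab
      · intro k hk
        rw [mem_Icc] at hk
        refine ⟨Nat.mul_pos hk.1 hn1, ?_⟩
        calc k * n ≤ n * n := Nat.mul_le_mul_right _ hk.2
          _ = n ^ 2 * 1 := by ring
          _ ≤ n ^ 2 * n := Nat.mul_le_mul_left _ hn1
          _ = n ^ 3 := by ring
    · refine key n (n ^ 3) X _ _ (by omega) hn3 le_rfl hX2 (h (n ^ 3) X _ _ (by omega) ?_ ?_ hX3 hm')
      · intro a _ b _ hab
        exact Nat.pow_left_injective (show 2 ≠ 0 by norm_num) (Nat.eq_of_mul_eq_mul_right hn1 hab)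
      · intro k hk
        rw [mem_Icc] at hk
        refine ⟨Nat.mul_pos (Nat.pow_pos hk.1) hn1, ?_⟩
        calc k ^ 2 * n ≤ n ^ 2 * n := Nat.mul_le_mul_right _ (Nat.pow_le_pow_left hk.2 2)
          _ = n ^ 3 := by ring
  · intro n X hn hX hm K hK
    have hn1 : 1 ≤ n := by omega
    have hX2 : 2 ≤ X := le_trans (by omega) ((Nat.le_self_pow (show 144 ≠ 0 by norm_num) n).trans hX)
    have hX3 : (n ^ 3) ^ 48 ≤ X := by rw [← pow_mul]; exact hX
    have hn3 : n ≤ n ^ 3 := Nat.le_self_pow (by norm_num) n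
    have hsq : (√(n : ℝ)) ^ 2 = n := Real.sq_sqrt (Nat.cast_nonneg _)
    have hs0 : 0 ≤ √(n : ℝ) := Real.sqrt_nonneg _
    have hcard : √(n : ℝ) ≤ K.card := by
      have h1 : Icc 1 ⌈√(n : ℝ)⌉₊ ⊆ K := by
        intro k hk
        rw [mem_Icc] at hk
        rw [hK]
        refine ⟨hk.1, ?_⟩
        have h2 : (k : ℝ) ≤ ⌈√(n : ℝ)⌉₊ := by exact_mod_cast hk.2
        have h3 := Nat.ceil_lt_add_one hs0
        linarith
      have h2 := card_le_card h1
      rw [Nat.card_Icc, Nat.add_sub_cancel] at h2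
      exact (Nat.le_ceil _).trans (by exact_mod_cast h2)
    refine key n (n ^ 3) X _ _ (by omega) hn3 le_rfl hX2
      (h (n ^ 3) X _ _ (by omega) ?_ ?_ hX3 (hm.trans hcard))
    · intro a _ b _ hab
      exact Nat.eq_of_mul_eq_mul_right hn1 hab
    · intro k hk
      have hk' := (hK k).1 hk
      refine ⟨Nat.mul_pos hk'.1 hn1, ?_⟩
      have h1 : (k : ℝ) ≤ (n : ℝ) ^ 2 := by
        have h2 : (100 : ℝ) ≤ n := by exact_mod_cast (show 100 ≤ n by omega)
        have h3 : √(n : ℝ) ≤ n := by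
          have h4 : 1 ≤ √(n : ℝ) := Real.one_le_sqrt.2 (by linarith)
          nlinarith
        nlinarith [hk'.2]
      have h2 : k ≤ n ^ 2 := by exact_mod_cast h1
      calc k * n ≤ n ^ 2 * n := Nat.mul_le_mul_right _ h2
        _ = n ^ 3 := by ring

end Pool.Agent.Results.MP_be93de_nt.ExactIndexRanges
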