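import Mathlib
import Pool.Agent.X32.Idx.Main

/-!
# The least `k` with `p_{k n} + 2` prime is large for almost all `n`

For a finite set `H` of `r` positive shifts and every `K ≥ 1`, at most `K N / (log N) ^ (r - ε)` of the `n ≤ N` have some
`k ≤ K` such that `p_{k n} + h` is prime for every `h ∈ H`. For `H = {2}`: for all but `N / (log N) ^ ε` of the `n ≤ N` no
`k ≤ (log N) ^ (1 - 2 ε)` makes `p_{k n} + 2` prime.
-/

set_option autoImplicit false

namespace Pool.Agent.Results.MP_be93de_nt.LeastMultiplier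

open Finset

/-- the `m`-th prime, `p 1 = 2` -/
noncomputable def p (m : ℕ) : ℕ := Nat.nth Nat.Prime (m - 1)

open Classical in
/-- the `n ≤ N` such that for some `k ≤ K` all the numbers `p_{k n} + h`, `h ∈ H`, are primes -/
noncomputable def Hit (H : Finset ℕ) (K N : ℕ) : Finset ℕ :=
  (Icc 1 N).filter (fun n => ∃ k, 1 ≤ k ∧ k ≤ K ∧ ∀ h ∈ H, (p (k * n) + h).Prime)

/-- Let `H` be a finite set of positive integers and `ε > 0`. For every large `N` and every `K ≥ 1`, there are at most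
`K N / (log N) ^ (#H - ε)` integers `n ≤ N` such that for some `k ≤ K` all the numbers `p_{k n} + h`, `h ∈ H`, are primes. -/
theorem result (H : Finset ℕ) (hH : ∀ h ∈ H, 1 ≤ h) (ε : ℝ) (hε : 0 < ε) :
    ∃ N₀ : ℕ, ∀ N : ℕ, N₀ ≤ N → ∀ K : ℕ, 1 ≤ K →
      ((Hit H K N).card : ℝ) ≤ K * N / Real.log N ^ ((H.card : ℝ) - ε) := by
  classical
  obtain ⟨C, hC, h⟩ := Pool.Agent.X32.Idx.TI_up H (fun h0 => by simpa using hH 0 h0)
  obtain ⟨N₀, hN₀⟩ := Pool.Agent.X32.Idx.main (fun m => ∀ h ∈ H, (Pool.Agent.X32.Idx.pm m + h).Prime) H.card C hC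
    (by
      filter_upwards [h] with Y hY S hS
      refine le_trans ?_ hY
      have : S ⊆ Pool.Agent.X32.Idx.TI H Y := by
        intro t ht
        obtain ⟨h1, h2, h3⟩ := hS t ht
        exact mem_filter.2 ⟨mem_Icc.2 ⟨h1, h2⟩, h3⟩
      exact_mod_cast card_le_card this) ε hε
  refine ⟨N₀, fun N hN K hK => hN₀ N hN K hK (Hit H K N) ?_⟩
  intro n hn
  obtain ⟨h1, h2⟩ := mem_filter.1 hn
  exact ⟨(mem_Icc.1 h1).1, (mem_Icc.1 h1).2, h2⟩

end Pool.Agent.Results.MP_be93de_nt.LeastMultiplier
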