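import Pool.Agent.X15.SysS.Idx

/-!
# Prime tuples at primes whose index is a multiple of `n`, for most shifts

For every `n` the `p_{kn}` behave, on average over the shifts, like all primes with respect to prime tuples: for all but
an arbitrarily small proportion of the admissible vectors `(h_1, ..., h_r)` of positive integers up to `x` at least
`c x / (log x) ^ (r + 1)` indices `m`, multiples of `n`, satisfy `p_m ≤ x` and make all the numbers `p_m + h_j` prime. The
multiples of `n` can be replaced by any set of indices with bounded gaps.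

The theorem rests on the library development Pool.Agent.TH882.
-/

set_option autoImplicit false

open Finset Filter Topology

namespace Pool.Agent.Results.MP_be93de_nt.MostShifts

/-- The `m`-th prime: `p 1 = 2`, `p 2 = 3`, `p 3 = 5`, and so on. -/
noncomputable def p (m : ℕ) : ℕ := Nat.nth Nat.Prime (m - 1)

/-- Every block of `M` consecutive positive integers contains an element of `S`. -/
def Syndetic (M : ℕ) (S : Set ℕ) : Prop := ∀ j : ℕ, 1 ≤ j → ∃ i < M, j + i ∈ S

/-- No local obstruction: for every prime `l` there is an integer `y` such that `l` divides neither `y` nor any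
`y + h_j`. -/
def Admissible {r : ℕ} (h : Fin r → ℕ) : Prop :=
  ∀ l : ℕ, l.Prime → ∃ y : ℤ, ¬ (l : ℤ) ∣ y ∧ ∀ j, ¬ (l : ℤ) ∣ y + h j

/-- The indices `m ∈ S` with `p_m ≤ x` such that all the numbers `p_m + h_j` are prime. -/
def indices (S : Set ℕ) {r : ℕ} (h : Fin r → ℕ) (x : ℕ) : Set ℕ :=
  {m : ℕ | 1 ≤ m ∧ m ∈ S ∧ p m ≤ x ∧ ∀ j, (p m + h j).Prime}

/-- The admissible vectors of positive integers `h_j ≤ x` with fewer than `c x / (log x) ^ (r + 1)` such indices. -/
def exceptions (S : Set ℕ) (r : ℕ) (c : ℝ) (x : ℕ) : Set (Fin r → ℕ) :=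
  {h : Fin r → ℕ | (∀ j, 1 ≤ h j ∧ h j ≤ x) ∧ Admissible h ∧
    ((indices S h x).ncard : ℝ) < c * (x / Real.log x ^ (r + 1))}

lemma p_primeCounting {q : ℕ} (hq : q.Prime) : p (Nat.primeCounting q) = q := by
  unfold p
  have h1 : Nat.primeCounting q = Nat.count Nat.Prime q + 1 := by
    unfold Nat.primeCounting Nat.primeCounting'
    rw [Nat.count_succ, if_pos hq]
  rw [h1, Nat.add_sub_cancel]
  exact Nat.nth_count hq

lemma indices_finite (S : Set ℕ) {r : ℕ} (h : Fin r → ℕ) (x : ℕ) : (indices S h x).Finite := by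
  apply (Set.finite_Iic (x + 1)).subset
  rintro m ⟨h1, -, h3, -⟩
  rw [Set.mem_Iic]
  have h4 : m - 1 ≤ p m := (Nat.nth_strictMono Nat.infinite_setOf_prime).le_apply (x := m - 1)
  omega

/-- **Prime tuples at primes with an index in a syndetic set, for most shifts.** Let `S` be a set of integers which meets
every block of `M` consecutive positive integers, `r ≥ 0` and `κ > 0`. There are `c > 0` and `x₀` such that for all
`x ≥ x₀` and for all admissible vectors `(h_1, ..., h_r)` of positive integers `h_j ≤ x`, with at most `κ x ^ r`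
exceptions, there are at least `c x / (log x) ^ (r + 1)` indices `m ∈ S` with `p_m ≤ x` for which all the numbers
`p_m + h_j` are prime. In particular this holds, for every `n ≥ 1`, for the set `S` of the multiples of `n`. -/
theorem result :
    (∀ (M : ℕ) (S : Set ℕ), Syndetic M S → ∀ (r : ℕ) (κ : ℝ), 0 < κ → ∃ c : ℝ, 0 < c ∧ ∃ x₀ : ℕ,
      ∀ x : ℕ, x₀ ≤ x → ((exceptions S r c x).ncard : ℝ) ≤ κ * (x : ℝ) ^ r) ∧
    ∀ n : ℕ, 1 ≤ n → ∀ (r : ℕ) (κ : ℝ), 0 < κ → ∃ c : ℝ, 0 < c ∧ ∃ x₀ : ℕ,
      ∀ x : ℕ, x₀ ≤ x → ((exceptions {m | n ∣ m} r c x).ncard : ℝ) ≤ κ * (x : ℝ) ^ r := by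
  classical
  have main : ∀ (M : ℕ) (S : Set ℕ), Syndetic M S → ∀ (r : ℕ) (κ : ℝ), 0 < κ → ∃ c : ℝ, 0 < c ∧
      ∃ x₀ : ℕ, ∀ x : ℕ, x₀ ≤ x → ((exceptions S r c x).ncard : ℝ) ≤ κ * (x : ℝ) ^ r := by
    intro M S hS r κ hκ
    have hM : 1 ≤ M := by
      obtain ⟨i, hi, -⟩ := hS 1 le_rfl
      omega
    obtain ⟨c, hc, x₀, h⟩ := Pool.Agent.X15.SysS.idx_sys (fun _ : Fin r => (1 : ℤ))
      (fun _ => Or.inl rfl) (fun _ => Polynomial.X) (fun _ => by simp) (fun _ => by simp) M hM S hS 1
      κ hκ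
    refine ⟨c, hc, x₀, fun x hx => ?_⟩
    have h1 := h x hx
    have e0 : ∏ j : Fin r, (x : ℝ) ^ (Polynomial.X : Polynomial ℤ).natDegree = (x : ℝ) ^ r := by
      rw [Polynomial.natDegree_X, pow_one, prod_const, card_univ, Fintype.card_fin]
    rw [e0] at h1
    refine le_trans ?_ h1
    apply Nat.cast_le.2
    rw [← Set.ncard_coe_finset]
    apply Set.ncard_le_ncard _ (finite_toSet _)
    rintro k ⟨hk1, hk2, hk3⟩
    rw [mem_coe, mem_filter, Fintype.mem_piFinset]
    refine ⟨fun j => ?_, ?_, lt_of_le_of_lt ?_ hk3⟩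
    · rw [mem_Icc, Polynomial.natDegree_X, pow_one, one_mul]
      exact hk1 j
    · intro l hl
      obtain ⟨y, hy1, hy2⟩ := hk2 l hl
      refine ⟨y, hy1, fun j hd => hy2 j ?_⟩
      rw [one_mul, Polynomial.eval_X, add_comm] at hd
      exact hd
    · apply Nat.cast_le.2
      rw [← Set.ncard_coe_finset]
      apply Set.ncard_le_ncard_of_injOn Nat.primeCounting _ _ (indices_finite S k x)
      · intro q hq
        rw [mem_coe, mem_filter, mem_Icc] at hq
        obtain ⟨⟨hq1, hq2⟩, hq3, hq4, hq5⟩ := hq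
        refine ⟨?_, hq4, ?_, ?_⟩
        · exact Nat.monotone_primeCounting hq3.two_le |>.trans' (by decide)
        · rw [p_primeCounting hq3]
          exact hq2
        · intro j
          have h5 := hq5 j
          rw [one_mul, Polynomial.eval_X] at h5
          rw [p_primeCounting hq3]
          have h6 : ((k j : ℤ) + (q : ℤ)).toNat = q + k j := by omega
          rwa [h6] at h5
      · intro q hq q' hq' hqq
        rw [mem_coe, mem_filter] at hq hq'
        rw [← p_primeCounting hq.2.1, ← p_primeCounting hq'.2.1, hqq]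
  refine ⟨main, fun n hn r κ hκ => main n _ ?_ r κ hκ⟩
  intro j _
  refine ⟨(n - j % n) % n, Nat.mod_lt _ hn, ?_⟩
  have h2 : j % n < n := Nat.mod_lt _ hn
  show n ∣ j + (n - j % n) % n
  rw [Nat.dvd_iff_mod_eq_zero, Nat.add_mod, Nat.mod_mod, ← Nat.add_mod]
  have h3 : j = n * (j / n) + j % n := (Nat.div_add_mod j n).symm
  have h4 : j + (n - j % n) = n * (j / n + 1) := by
    rw [Nat.mul_add, mul_one]
    omega
  rw [h4]
  exact Nat.mul_mod_right n _

end Pool.Agent.Results.MP_be93de_nt.MostShifts
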