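import Mathlib
import Pool.Agent.X28.SX.StepI

/-!
# Primes `p_{k n}` with `p_{k n} + h` prime, for almost all `h`, with the expected number of `k`

For every `n` up to any power of `log x`, every dense set `K` of integers `k` with `k n ≤ x` and almost all vectors of
shifts `h_1, …, h_r` (multiples of a small primorial) all the numbers `p_{k n} + h_i` are prime for at least `1 - ε` times
the expected number of `k ∈ K`.
-/

set_option autoImplicit false

namespace Pool.Agent.Results.MP_be93de_nt.SharpIndexMultiples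

open Finset Filter

/-- the `k`-th prime, `p 1 = 2` -/
noncomputable def p (k : ℕ) : ℕ := Nat.nth Nat.Prime (k - 1)

/-- the product of `1 - 1/q` over the primes `q ≤ y` -/
noncomputable def V (y : ℕ) : ℝ := ∏ q ∈ (Icc 1 y).filter Nat.Prime, (1 - 1 / (q : ℝ))

open Classical in
/-- the `k ∈ K` for which all the numbers `p_{k n} + t i`, `i < r`, are prime -/
noncomputable def Good (n : ℕ) (K : Finset ℕ) {r : ℕ} (t : Fin r → ℕ) : Finset ℕ :=
  K.filter (fun k => ∀ i, (p (k * n) + t i).Prime)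

open Classical in
/-- for all but at most `ε G ^ r` of the vectors `g ∈ [1, G] ^ r` all the numbers `p_{k n} + M (g₀ + g_i)`, `i < r`, are
prime for at least `(1 - ε) #K / (V y log x) ^ r` elements `k` of `K`; `M` is the product of the primes up to `y` -/
def Sharp (x n r y g₀ G : ℕ) (ε : ℝ) (K : Finset ℕ) : Prop :=
  (((Fintype.piFinset (fun _ : Fin r => Icc 1 G)).filter (fun g =>
    ((Good n K (fun i => primorial y * (g₀ + g i))).card : ℝ) <
      (1 - ε) * (K.card / (V y * Real.log x) ^ r))).card : ℝ) ≤ ε * (G : ℝ) ^ r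

/-- For all `r`, `A`, `C` and `0 < ε ≤ 1` there is `K₀` such that for every `K₁` and every large `x`, every `y` between
`K₀ log log x` and `K₁ log log x`, with `M` the product of the primes `≤ y`, every window `(g₀, g₀ + G]` with
`M (g₀ + G) ≤ x`, `G ≥ x / (M log ^ C x)`, and every `n ≥ 1`:
(1) for every set `K` of at least `x / log ^ A x` positive integers `k` with `k n ≤ x`, for all but at most `ε G ^ r` of the
vectors `g ∈ [1, G] ^ r` all the numbers `p_{k n} + M (g₀ + g_i)`, `i < r`, are prime for at least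
`(1 - ε) #K / (V y log x) ^ r` elements `k` of `K`;
(2) if `n ≤ log ^ A x`, this holds for the set `K` of all `k` with `k n ≤ x`. -/
theorem result : ∀ (r A C : ℕ) (ε : ℝ), 0 < ε → ε ≤ 1 → ∃ K₀ : ℕ, ∀ K₁ : ℕ, ∃ x₀ : ℕ, ∀ x : ℕ, x₀ ≤ x →
    ∀ y : ℕ, K₀ * Real.log (Real.log x) ≤ y → y ≤ K₁ * Real.log (Real.log x) →
    ∀ g₀ G : ℕ, primorial y * (g₀ + G) ≤ x → (x : ℝ) ≤ primorial y * G * Real.log x ^ C →
    ∀ n : ℕ, 1 ≤ n →
      (∀ K : Finset ℕ, (∀ k ∈ K, 1 ≤ k ∧ k * n ≤ x) → (x : ℝ) ≤ K.card * Real.log x ^ A →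
        Sharp x n r y g₀ G ε K) ∧
      ((n : ℝ) ≤ Real.log x ^ A → Sharp x n r y g₀ G ε (Icc 1 (x / n))) := by
  classical
  intro r A C ε hε hε1
  obtain ⟨K₀, hK₀⟩ := Pool.Agent.X28.SX.stepI (ι := Fin r) (fun _ => 1) (fun _ => Or.inl rfl) (A + 1) 2 C ε hε hε1
  refine ⟨K₀, fun K₁ => ?_⟩
  obtain ⟨n1, hn1⟩ := hK₀ K₁
  obtain ⟨n2, hn2⟩ := Pool.Agent.X28.SX.nth_le
  obtain ⟨n3, hn3⟩ : ∃ n3 : ℕ, ∀ x : ℕ, n3 ≤ x → Real.log x ^ A ≤ x := by
    obtain ⟨n3, h3⟩ := Pool.Agent.H373R2.T7.ev_log' A 1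
    refine ⟨max n3 1, fun x hx => ?_⟩
    have h4 := h3 x ((le_max_left _ _).trans hx)
    rw [one_mul] at h4
    refine h4.trans ?_
    have h5 : (1 : ℝ) ≤ x := by exact_mod_cast (le_max_right _ _).trans hx
    rw [Real.sqrt_le_left (by linarith)]
    nlinarith
  obtain ⟨n4, hn4⟩ := Pool.Agent.H373R2.T7.ev_L' 2
  refine ⟨max n1 (max n2 (max n3 n4)), fun x hx y hy1 hy2 g₀ G hg1 hg2 n hn => ?_⟩
  have b1 : n1 ≤ x := le_trans (le_max_left _ _) hx
  have b2 : n2 ≤ x := le_trans (le_trans (le_max_left _ _) (le_max_right _ _)) hx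
  have b3 : n3 ≤ x := le_trans (le_trans (le_trans (le_max_left _ _) (le_max_right _ _)) (le_max_right _ _)) hx
  have b4 : n4 ≤ x := le_trans (le_trans (le_trans (le_max_right _ _) (le_max_right _ _)) (le_max_right _ _)) hx
  have hL2 := hn4 x b4
  have hL1 : 1 ≤ Real.log x := by linarith
  have main : ∀ K : Finset ℕ, (∀ k ∈ K, 1 ≤ k ∧ k * n ≤ x) → (x : ℝ) ≤ K.card * Real.log x ^ (A + 1) →
      Sharp x n r y g₀ G ε K := by
    intro K hK hKc
    have hinj : Set.InjOn (fun k => p (k * n)) (K : Set ℕ) := by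
      intro a ha b hb hab
      have h1 := hK a (mem_coe.1 ha)
      have h2 := hK b (mem_coe.1 hb)
      have h3 := Pool.Agent.X28.SX.nth_inj' (a := a * n) (b := b * n) (Nat.mul_pos h1.1 hn) (Nat.mul_pos h2.1 hn) hab
      exact Nat.eq_of_mul_eq_mul_right hn h3
    have h1 := hn1 x b1 y hy1 hy2 K hKc (fun _ k => p (k * n)) (fun _ => hinj)
      (fun _ k hk => ⟨Nat.prime_nth_prime _, hn2 x b2 (k * n) (by have := (hK k hk).2; omega)⟩)
      (fun _ => g₀) (fun _ => G) (fun _ => by rw [pow_one]; exact hg1) (fun _ => by rw [pow_one]; exact hg2)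
    simp only [prod_const, card_univ, Fintype.card_fin] at h1
    unfold Sharp
    refine le_trans (le_of_eq ?_) h1
    congr 2
    apply filter_congr
    intro g _
    have e1 : Pool.Agent.H373R2.T7.Vz y * (((1 : ℕ) : ℝ) * Real.log x) = V y * Real.log x := by
      have : Pool.Agent.H373R2.T7.Vz y = V y := rfl
      rw [this]
      push_cast
      ring
    rw [e1]
    simp only [pow_one]
    rfl
  refine ⟨fun K hK hKc => main K hK (hKc.trans ?_), fun hnA => main _ ?_ ?_⟩
  · exact mul_le_mul_of_nonneg_left (pow_le_pow_right₀ hL1 (Nat.le_succ _)) (Nat.cast_nonneg _)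
  · intro k hk
    rw [mem_Icc] at hk
    exact ⟨hk.1, (Nat.mul_le_mul_right n hk.2).trans (Nat.div_mul_le_self x n)⟩
  · rw [Nat.card_Icc, Nat.add_sub_cancel]
    have h3 := hn3 x b3
    have hnx : n ≤ x := by exact_mod_cast hnA.trans h3
    have h4 : x ≤ 2 * (x / n) * n := by
      have h5 := Nat.div_add_mod x n
      have h6 := Nat.mod_lt x hn
      have h7 : 1 ≤ x / n := (Nat.one_le_div_iff hn).2 hnx
      nlinarith
    have h5 : (x : ℝ) ≤ 2 * ((x / n : ℕ) : ℝ) * n := by exact_mod_cast h4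
    have h6 : (0 : ℝ) ≤ ((x / n : ℕ) : ℝ) := Nat.cast_nonneg _
    calc (x : ℝ) ≤ 2 * ((x / n : ℕ) : ℝ) * n := h5
      _ ≤ 2 * ((x / n : ℕ) : ℝ) * Real.log x ^ A := mul_le_mul_of_nonneg_left hnA (by positivity)
      _ ≤ Real.log x * ((x / n : ℕ) : ℝ) * Real.log x ^ A := by
          apply mul_le_mul_of_nonneg_right _ (by positivity)
          exact mul_le_mul_of_nonneg_right hL2 h6
      _ = _ := by rw [pow_succ]; ring

end Pool.Agent.Results.MP_be93de_nt.SharpIndexMultiples
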